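import Mathlib

/-!
# Groups generated by a conjugacy class with a hypercentral subgroup of bounded index
-/

namespace Q6.Tower

open Subgroup
open scoped commutatorElement

variable {G : Type} [Group G]

/-- The three subgroups lemma modulo a normal subgroup. -/
theorem three_rel {H₁ H₂ H₃ N : Subgroup G} [N.Normal] (h1 : ⁅⁅H₂, H₃⁆, H₁⁆ ≤ N)
    (h2 : ⁅⁅H₃, H₁⁆, H₂⁆ ≤ N) : ⁅⁅H₁, H₂⁆, H₃⁆ ≤ N := by
  have key : ∀ A : Subgroup G, A ≤ N ↔ A.map (QuotientGroup.mk' N) = ⊥ := by
    intro A
    rw [Subgroup.map_eq_bot_iff, QuotientGroup.ker_mk']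
  rw [key, Subgroup.map_commutator, Subgroup.map_commutator] at h1 h2 ⊢
  exact commutator_commutator_eq_bot_of_rotate h1 h2

theorem upper_lower (i j : ℕ) :
    ⁅Subgroup.upperCentralSeries G j, (⊤ : Subgroup G).lowerCentralSeries i⁆ ≤
      Subgroup.upperCentralSeries G (j - (i + 1)) := by
  have h0 : ∀ j, ⁅Subgroup.upperCentralSeries G j, (⊤ : Subgroup G)⁆ ≤ Subgroup.upperCentralSeries G (j - 1) := by
    intro j
    cases j with
    | zero =>
      rw [Subgroup.upperCentralSeries_zero, commutator_bot_left]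
    | succ j => exact commutator_upperCentralSeries_top_le G j
  induction i generalizing j with
  | zero => exact h0 j
  | succ i ih =>
    rw [Subgroup.lowerCentralSeries_succ, commutator_comm]
    apply three_rel
    · rw [commutator_comm ⊤]
      refine (commutator_mono (h0 j) le_rfl).trans ((ih (j - 1)).trans ?_)
      exact le_of_eq (by congr 1; omega)
    · refine (commutator_mono (ih j) le_rfl).trans ((h0 _).trans ?_)
      exact le_of_eq (by congr 1)

/-- `G` is generated by the conjugates of `s`. -/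
def Gen (s : G) : Prop := closure {x : G | ∃ g : G, x = g * s * g⁻¹} = ⊤

theorem gen_closure {s : G} (hs : Gen s) (L : Subgroup G) (h1 : _root_.commutator G ≤ L) (h2 : s ∈ L) :
    L = ⊤ := by
  rw [eq_top_iff, ← hs, closure_le]
  rintro _ ⟨g, rfl⟩
  have h3 : ⁅g, s⁆ ∈ L := h1 (commutator_mem_commutator (mem_top g) (mem_top s))
  have h4 : g * s * g⁻¹ = ⁅g, s⁆ * s := by rw [commutatorElement_def]; group
  rw [h4]
  exact L.mul_mem h3 h2

/-- A property stable under products and inverses that holds on the derived subgroup and on `s`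
holds everywhere. -/
theorem gen_induction {s : G} (hs : Gen s) (P : G → Prop) (hP1 : P 1) (hD : ∀ d ∈ _root_.commutator G, P d)
    (hPs : P s) (hmul : ∀ x y, P x → P y → P (x * y)) (hinv : ∀ x, P x → P x⁻¹) (g : G) : P g := by
  let L : Subgroup G :=
    { carrier := {x | P x}
      mul_mem' := fun {x y} hx hy => hmul x y hx hy
      one_mem' := hP1
      inv_mem' := fun {x} hx => hinv x hx }
  have hL : L = ⊤ := gen_closure hs L hD hPs
  have : g ∈ L := hL ▸ mem_top g
  exact this

/-- If `[g, d] ∈ L` for all `g` and all `d` in the derived subgroup, `L` normal, then the derived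
subgroup is contained in `L`. -/
theorem commutator_le_of_gen {s : G} (hs : Gen s) (L : Subgroup G) [hL : L.Normal]
    (h : ∀ g : G, ∀ d ∈ _root_.commutator G, ⁅g, d⁆ ∈ L) : _root_.commutator G ≤ L := by
  have hprod : ∀ x y z : G, ⁅x, y⁆ ∈ L → ⁅x, z⁆ ∈ L → ⁅x, y * z⁆ ∈ L := by
    intro x y z h1 h2
    have h3 : ⁅x, y * z⁆ = ⁅x, y⁆ * (y * ⁅x, z⁆ * y⁻¹) := by
      simp only [commutatorElement_def]; group
    rw [h3]
    exact L.mul_mem h1 (hL.conj_mem _ h2 _)
  have hinvr : ∀ x y : G, ⁅x, y⁆ ∈ L → ⁅x, y⁻¹⁆ ∈ L := by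
    intro x y h1
    have h3 : ⁅x, y⁻¹⁆ = y⁻¹ * ⁅x, y⁆⁻¹ * (y⁻¹)⁻¹ := by
      simp only [commutatorElement_def]; group
    rw [h3]
    exact hL.conj_mem _ (L.inv_mem h1) _
  have hsymm : ∀ x y : G, ⁅x, y⁆ ∈ L → ⁅y, x⁆ ∈ L := by
    intro x y h1
    rw [← commutatorElement_inv]
    exact L.inv_mem h1
  have hs1 : ∀ g : G, ⁅s, g⁆ ∈ L := by
    intro g
    refine gen_induction hs (fun g => ⁅s, g⁆ ∈ L) ?_ ?_ ?_ ?_ ?_ g
    · simp
    · intro d hd; exact h s d hd
    · simp
    · intro x y hx hy; exact hprod s x y hx hy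
    · intro x hx; exact hinvr s x hx
  have hall : ∀ x g : G, ⁅x, g⁆ ∈ L := by
    intro x g
    refine gen_induction hs (fun g => ⁅x, g⁆ ∈ L) ?_ ?_ ?_ ?_ ?_ g
    · simp
    · intro d hd; exact h x d hd
    · exact hsymm _ _ (hs1 x)
    · intro y z hy hz; exact hprod x y z hy hz
    · intro y hy; exact hinvr x y hy
  rw [commutator_def, commutator_le]
  intro x _ y _
  exact hall x y

theorem commutator_eq {s : G} (hs : Gen s) : _root_.commutator G = ⁅_root_.commutator G, (⊤ : Subgroup G)⁆ := by
  apply le_antisymm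
  · have hn : (⁅_root_.commutator G, (⊤ : Subgroup G)⁆).Normal := inferInstance
    apply commutator_le_of_gen hs
    intro g d hd
    rw [← commutatorElement_inv]
    exact Subgroup.inv_mem _ (commutator_mem_commutator hd (mem_top g))
  · exact commutator_le_left _ _

/-- Hypercentral subgroups centralize the derived subgroup. -/
theorem hyper_centralizes {s : G} (hs : Gen s) (j : ℕ) :
    ⁅Subgroup.upperCentralSeries G j, _root_.commutator G⁆ = ⊥ := by
  have h1 : ∀ i, _root_.commutator G ≤ (⊤ : Subgroup G).lowerCentralSeries i := by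
    intro i
    induction i with
    | zero => exact le_top
    | succ i ih =>
      rw [Subgroup.lowerCentralSeries_succ, commutator_eq hs]
      exact commutator_mono ih le_rfl
  rw [eq_bot_iff]
  refine (commutator_mono le_rfl (h1 j)).trans ((upper_lower j j).trans ?_)
  have : j - (j + 1) = 0 := by omega
  rw [this, Subgroup.upperCentralSeries_zero]

/-- An element of the derived subgroup `D` fixed by `s` modulo `[D, D]` lies in `[D, D]`. -/
theorem fixed_in_derived [Finite G] {s : G} (hs : Gen s) {x : G} (hx : x ∈ _root_.commutator G)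
    (hsx : ⁅s, x⁆ ∈ ⁅_root_.commutator G, _root_.commutator G⁆) :
    x ∈ ⁅_root_.commutator G, _root_.commutator G⁆ := by
  set D := _root_.commutator G with hD
  have hDn : D.Normal := inferInstance
  let cs : D →* D := (MulAut.conjNormal s : MulAut D).toMonoidHom
  have hcs : ∀ d : D, ((cs d : D) : G) = s * d * s⁻¹ := fun d => MulAut.conjNormal_apply s d
  let f : Abelianization D →* Abelianization D :=
    { toFun := fun y => Abelianization.map cs y * y⁻¹
      map_one' := by simp
      map_mul' := by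
        intro y z
        rw [map_mul, mul_inv]
        exact mul_mul_mul_comm _ _ _ _ }
  have hf : ∀ d : D, f (Abelianization.of d) = Abelianization.of (cs d * d⁻¹) := by
    intro d
    show Abelianization.map cs (Abelianization.of d) * (Abelianization.of d)⁻¹ = _
    rw [Abelianization.map_of, map_mul, map_inv]
  -- membership in `[D, D]`
  have hmem : ∀ d : D, Abelianization.of d = 1 ↔ (d : G) ∈ ⁅D, D⁆ := by
    intro d
    rw [← MonoidHom.mem_ker, Abelianization.ker_of, ← map_subtype_commutator]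
    constructor
    · intro h; exact ⟨d, h, rfl⟩
    · rintro ⟨d', h, hdd⟩
      have : d' = d := Subtype.ext hdd
      rw [← this]; exact h
  -- the subgroup of elements in the image
  let S : Subgroup G := ((f.range).comap Abelianization.of).map D.subtype
  have hS : ∀ d : D, (d : G) ∈ S ↔ Abelianization.of d ∈ f.range := by
    intro d
    constructor
    · rintro ⟨d', h, hdd⟩
      have : d' = d := Subtype.ext hdd
      rw [← this]; exact h
    · intro h; exact ⟨d, h, rfl⟩
  have hP : ∀ g : G, ∀ d ∈ D, ⁅g, d⁆ ∈ S := by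
    intro g
    have hbr : ∀ (g : G) (d : G), d ∈ D → ⁅g, d⁆ ∈ D := by
      intro g d hd
      rw [commutatorElement_def]
      exact D.mul_mem (hDn.conj_mem d hd g) (D.inv_mem hd)
    refine gen_induction hs (fun g => ∀ d ∈ D, ⁅g, d⁆ ∈ S) ?_ ?_ ?_ ?_ ?_ g
    · intro d _
      simp [S.one_mem]
    · intro g hg d hd
      have h1 : ⁅g, d⁆ ∈ ⁅D, D⁆ := commutator_mem_commutator hg hd
      have h2 := (hmem ⟨⁅g, d⁆, hbr g d hd⟩).2 h1
      refine (hS ⟨⁅g, d⁆, hbr g d hd⟩).2 ?_
      rw [h2]
      exact f.range.one_mem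
    · intro d hd
      refine (hS ⟨⁅s, d⁆, hbr s d hd⟩).2 ⟨Abelianization.of ⟨d, hd⟩, ?_⟩
      rw [hf]
      have h1 : cs ⟨d, hd⟩ * (⟨d, hd⟩ : D)⁻¹ = ⟨⁅s, d⁆, hbr s d hd⟩ := by
        apply Subtype.ext
        show ((cs ⟨d, hd⟩ : D) : G) * d⁻¹ = ⁅s, d⁆
        rw [hcs, commutatorElement_def]
      rw [h1]
    · intro g h hg hh d hd
      have h1 := hh d hd
      have h2 := hg ⁅h, d⁆ (hbr h d hd)
      have h3 : ⁅g * h, d⁆ = ⁅g, ⁅h, d⁆⁆ * ⁅h, d⁆ * ⁅g, d⁆ := by
        simp only [commutatorElement_def]; group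
      rw [h3]
      exact S.mul_mem (S.mul_mem h2 h1) (hg d hd)
    · intro g hg d hd
      have h1 : g⁻¹ * d * g ∈ D := by
        have := hDn.conj_mem d hd g⁻¹
        rwa [inv_inv] at this
      have h2 := hg _ h1
      have h3 : ⁅g⁻¹, d⁆ = ⁅g, g⁻¹ * d * g⁆⁻¹ := by
        simp only [commutatorElement_def]; group
      rw [h3]
      exact S.inv_mem h2
  have hDS : D ≤ S := by
    have h1 : ⁅D, (⊤ : Subgroup G)⁆ ≤ S := by
      rw [commutator_le]
      intro d hd g _
      rw [← commutatorElement_inv]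
      exact S.inv_mem (hP g d hd)
    rw [hD, commutator_eq hs]
    exact h1
  have hsurj : Function.Surjective f := by
    intro y
    obtain ⟨d, rfl⟩ : ∃ d : D, Abelianization.of d = y := QuotientGroup.mk_surjective y
    exact (hS d).1 (hDS d.2)
  have hfin : Finite (Abelianization D) := inferInstance
  have hinj : Function.Injective f := Finite.injective_iff_surjective.2 hsurj
  have h1 : f (Abelianization.of ⟨x, hx⟩) = 1 := by
    rw [hf, hmem]
    show ((cs ⟨x, hx⟩ : D) : G) * x⁻¹ ∈ ⁅D, D⁆
    rw [hcs]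
    exact hsx
  have h2 : Abelianization.of (⟨x, hx⟩ : D) = 1 := hinj (h1.trans (map_one f).symm)
  exact (hmem ⟨x, hx⟩).1 h2

/-- The hypercentral part of the derived subgroup `D` lies in `[D, D]`. -/
theorem hyper_inf_le [Finite G] {s : G} (hs : Gen s) (j : ℕ) :
    Subgroup.upperCentralSeries G j ⊓ _root_.commutator G ≤
      ⁅_root_.commutator G, _root_.commutator G⁆ := by
  induction j with
  | zero =>
    rw [Subgroup.upperCentralSeries_zero, bot_inf_eq]
    exact bot_le
  | succ j ih =>
    rintro x ⟨hx1, hx2⟩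
    apply fixed_in_derived hs hx2
    apply ih
    constructor
    · have h1 : ⁅x, s⁆ ∈ Subgroup.upperCentralSeries G j :=
        Subgroup.mem_upperCentralSeries_succ_iff.1 hx1 s
      rw [← commutatorElement_inv]
      exact Subgroup.inv_mem _ h1
    · have hn : (_root_.commutator G).Normal := inferInstance
      rw [SetLike.mem_coe, commutatorElement_def]
      exact Subgroup.mul_mem _ (hn.conj_mem x hx2 s) (Subgroup.inv_mem _ hx2)

/-- The number of commutators is at most the square of the index of the center. -/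
theorem card_commutatorSet_le (H : Type) [Group H] [Finite H] :
    Nat.card (commutatorSet H) ≤ (center H).index ^ 2 := by
  let F : (H ⧸ center H) × (H ⧸ center H) → commutatorSet H :=
    fun p => ⟨⁅p.1.out, p.2.out⁆, ⟨p.1.out, p.2.out, rfl⟩⟩
  have hF : Function.Surjective F := by
    rintro ⟨_, x, y, rfl⟩
    refine ⟨((x : H ⧸ center H), (y : H ⧸ center H)), ?_⟩
    apply Subtype.ext
    show ⁅(x : H ⧸ center H).out, (y : H ⧸ center H).out⁆ = ⁅x, y⁆
    obtain ⟨z, hz⟩ := QuotientGroup.mk_out_eq_mul (center H) x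
    obtain ⟨w, hw⟩ := QuotientGroup.mk_out_eq_mul (center H) y
    rw [hz, hw]
    have hz' : ∀ g : H, g * (z : H) = z * g := Subgroup.mem_center_iff.1 z.2
    have hw' : ∀ g : H, g * (w : H) = w * g := Subgroup.mem_center_iff.1 w.2
    rw [commutatorElement_def, commutatorElement_def, mul_inv_rev, mul_inv_rev]
    have h1 : x * (z : H) * (y * w) * ((z : H)⁻¹ * x⁻¹) * ((w : H)⁻¹ * y⁻¹) =
        x * (z * (y * w) * (z : H)⁻¹) * x⁻¹ * (w : H)⁻¹ * y⁻¹ := by group
    rw [h1, ← hz' (y * w), mul_assoc (y * (w : H)), mul_inv_cancel, mul_one]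
    have h2 : x * (y * (w : H)) * x⁻¹ * (w : H)⁻¹ * y⁻¹ =
        x * y * (w * x⁻¹ * (w : H)⁻¹) * y⁻¹ := by group
    rw [h2, ← hw' x⁻¹, mul_assoc x⁻¹, mul_inv_cancel, mul_one]
  have h1 := Nat.card_le_card_of_surjective F hF
  rw [Nat.card_prod] at h1
  rw [sq]
  exact h1

theorem card_commutator_le (H : Type) [Group H] [Finite H] {c : ℕ} (hc : (center H).index ≤ c) :
    Nat.card (_root_.commutator H) ≤ c ^ (c * c ^ 2 + 1) := by
  have hpos : 0 < (center H).index := Nat.pos_of_ne_zero Subgroup.index_ne_zero_of_finite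
  have h1 := card_commutator_dvd_index_center_pow H
  have h2 := Nat.le_of_dvd (pow_pos hpos _) h1
  refine h2.trans ?_
  have h3 := card_commutatorSet_le H
  have hc0 : 0 < c := lt_of_lt_of_le hpos hc
  calc (center H).index ^ ((center H).index * Nat.card (commutatorSet H) + 1)
      ≤ c ^ ((center H).index * Nat.card (commutatorSet H) + 1) := Nat.pow_le_pow_left hc _
    _ ≤ c ^ (c * c ^ 2 + 1) := by
        apply Nat.pow_le_pow_right hc0
        have h4 : (center H).index ^ 2 ≤ c ^ 2 := Nat.pow_le_pow_left hc 2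
        have h5 := Nat.mul_le_mul hc (h3.trans h4)
        omega

/-- The main bound: the derived subgroup has bounded order in terms of the index of a normal
hypercentral subgroup. -/
theorem card_derived_le [Finite G] {s : G} (hs : Gen s) (K : Subgroup G) (j : ℕ)
    (hK : K ≤ Subgroup.upperCentralSeries G j) {c : ℕ} (hc : K.index ≤ c) :
    Nat.card (_root_.commutator G) ≤ c * c ^ (c * c ^ 2 + 1) := by
  set D := _root_.commutator G with hD
  have h1 : (K.subgroupOf D).index ≤ c := by
    have h2 : (K.subgroupOf D).index = K.relIndex D := rfl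
    rw [h2]
    have h3 : K.relIndex D ≤ K.index := by
      have h4 := Subgroup.relIndex_le_of_le_right (H := K) (le_top : D ≤ ⊤)
        (by rw [Subgroup.relIndex_top_right]; exact Subgroup.index_ne_zero_of_finite)
      rwa [Subgroup.relIndex_top_right] at h4
    exact h3.trans hc
  have h2 : K.subgroupOf D ≤ center D := by
    intro x hx
    rw [Subgroup.mem_center_iff]
    intro g
    apply Subtype.ext
    have hx' : (x : G) ∈ Subgroup.upperCentralSeries G j := hK hx
    have h3 : ⁅(x : G), (g : G)⁆ ∈ ⁅Subgroup.upperCentralSeries G j, _root_.commutator G⁆ :=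
      commutator_mem_commutator hx' g.2
    rw [hyper_centralizes hs, Subgroup.mem_bot, commutatorElement_eq_one_iff_mul_comm] at h3
    exact h3.symm
  have h3 : (center D).index ≤ c := by
    refine le_trans ?_ h1
    exact Nat.le_of_dvd (Nat.pos_of_ne_zero Subgroup.index_ne_zero_of_finite)
      (Subgroup.index_dvd_of_le h2)
  have h4 := card_commutator_le D h3
  have h5 : K.subgroupOf D ≤ _root_.commutator D := by
    intro x hx
    have h6 : (x : G) ∈ ⁅D, D⁆ := hyper_inf_le hs j ⟨hK hx, x.2⟩
    rw [← map_subtype_commutator] at h6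
    obtain ⟨d', h7, hdd⟩ := h6
    have : d' = x := Subtype.ext hdd
    rw [← this]; exact h7
  have h6 : Nat.card (K.subgroupOf D) ≤ Nat.card (_root_.commutator D) :=
    Nat.card_mono (Set.toFinite _) h5
  have h7 := Subgroup.index_mul_card (K.subgroupOf D)
  rw [← h7]
  exact Nat.mul_le_mul h1 (h6.trans h4)

end Q6.Tower
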